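import Pool.Agent.H.MP_a73859_co.A

namespace Pool.Agent.Results.MP_a73859_co.Counter

open SimpleGraph Finset Pool.Agent.H.MP_a73859_co

/-- at least four vertices, and connected after deleting any set of at most two vertices -/
def ThreeConn {n : ℕ} (G : SimpleGraph (Fin n)) : Prop :=
  4 ≤ n ∧ ∀ S : Set (Fin n), S.ncard ≤ 2 → (G.induce Sᶜ).Connected

open Classical in
/-- the flow polynomial `∑_{A ⊆ E} (-1)^{|E|-|A|} q^{|A|-|V|+c(A)}` evaluated at `q` -/
noncomputable def flow {n : ℕ} (G : SimpleGraph (Fin n)) (q : ℝ) : ℝ :=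
  ∑ A ∈ G.edgeFinset.powerset, (-1) ^ (G.edgeFinset.card - A.card) *
    q ^ ((A.card : ℤ) - n + Nat.card (fromEdgeSet (A : Set (Sym2 (Fin n)))).ConnectedComponent)

def EL : List (Fin 11 × Fin 11) :=
  [(0, 4), (0, 8), (0, 7), (4, 7), (7, 8), (0, 1), (1, 4), (1, 8), (1, 7), (6, 8), (1, 6),
    (8, 10), (1, 10), (6, 10), (4, 5), (5, 8), (2, 8), (2, 6), (2, 10), (2, 5), (1, 9), (5, 9),
    (2, 9), (1, 3), (3, 5), (2, 3), (3, 9)]

def nb (u : Fin 11) : ℕ := [402, 2009, 1896, 550, 163, 796, 1286, 275, 1255, 46, 326].getD u 0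

def G : SimpleGraph (Fin 11) where
  Adj u v := (nb u).testBit v
  symm := ⟨by decide +kernel⟩
  loopless := ⟨by decide +kernel⟩

instance : DecidableRel G.Adj := fun u v => by unfold G; infer_instance

lemma r1 : 0 < run (3 / 2) EL [(List.range 11, 1)] := by decide +kernel
lemma r2 : run (99 / 50) EL [(List.range 11, 1)] < 0 := by decide +kernel

lemma flow_eq (q : ℚ) (hq : q ≠ 0) : flow G q = run q EL [(List.range 11, 1)] := by
  have nd : (EL.map fun e => s(e.1, e.2)).Nodup := by decide +kernel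
  have e0 : ∀ u v, G.Adj u v ↔ s(u, v) ∈ EL.map fun e => s(e.1, e.2) := by decide +kernel
  have e1 : ∀ i : Fintype G.edgeSet, @edgeFinset _ G i = (EL.map fun e => s(e.1, e.2)).toFinset :=
    fun i => by
      ext ⟨u, v⟩
      rw [List.mem_toFinset, mem_edgeFinset]
      exact e0 u v
  have l : gt (List.range 11) = fun x : Fin 11 => x.val := by decide +kernel
  have := sumZ q hq EL nd ⊥ (fun x => x.val) fun x y => by simp [Fin.ext_iff]
  rw [run_eq, H.MP_a73859_co.val, List.map_singleton, List.sum_singleton, one_mul, l, ← this, flow, e1]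
  refine sum_congr rfl fun A hA => ?_
  have c := card_le_card (mem_powerset.1 hA)
  rw [List.toFinset_card_of_nodup nd, List.length_map] at c ⊢
  rw [bot_sup_eq, card_image_of_injective _ Fin.val_injective, card_univ, Fintype.card_fin]
  congr 1
  obtain ⟨k, hk⟩ := Nat.exists_eq_add_of_le c
  rw [hk, Nat.add_sub_cancel_left, add_right_comm, ← two_mul, pow_add, pow_mul]
  simp

def tb : List ℕ :=
  [12210175, 12285750, 12210125, 12210050, 12209550, 12203925, 12194550, 12132050, 11819550,
    10257050, 2444550, 12210175, 12285750, 25897925, 25897875, 25897550, 25897300, 25891675,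
    25866675, 25819800, 45069825, 20038550, 6366675, 25897925, 12210125, 25897875, 23944630,
    23944380, 23944005, 23938380, 23913380, 23866505, 23554005, 20038380, 4413380, 23944630,
    12210050, 25897550, 23944380, 23944430, 23943805, 23938180, 23913180, 23866305, 23553830,
    20038180, 4413180, 23944430, 12209550, 25897300, 23944005, 23943805, 23944055, 23937805,
    23912805, 23865930, 23556580, 20037805, 4412805, 23944055, 12203925, 25891675, 23938380,
    23938180, 23937805, 23938430, 23907180, 23860305, 23547830, 20032180, 4407180, 23938430,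
    12194550, 25866675, 23913380, 23913180, 23912805, 23907180, 23913430, 23835305, 23522830,
    20007180, 4382180, 23913430, 12132050, 25819800, 23866505, 23866305, 23865930, 23860305,
    23835305, 23866555, 23475955, 19960305, 4335305, 23866555, 11819550, 45069825, 23554005,
    23553830, 23556580, 23547830, 23522830, 23475955, 23554080, 19647830, 4022830, 23554080,
    10257050, 20038550, 20038380, 20038180, 20037805, 20032180, 20007180, 19960305, 19647830,
    20038430, 507180, 20038430, 2444550, 6366675, 4413380, 4413180, 4412805, 4407180, 4382180,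
    4335305, 4022830, 507180, 4413430, 4413430, 12210175, 25897925, 23944630, 23944430,
    23944055, 23938430, 23913430, 23866555, 23554080, 20038430, 4413430, 23944680]

def rk (a b : Fin 12) (x : Fin 11) : ℕ := tb.getD (12 * a + b) 0 / 5 ^ x.val % 5

def rt (a b : Fin 12) : Fin 11 := if a ≠ 0 ∧ b ≠ 0 then 0 else if a ≠ 1 ∧ b ≠ 1 then 1 else 2

lemma cert : ∀ a b : Fin 12, ((rt a b).val ≠ a ∧ (rt a b).val ≠ b) ∧ ∀ x : Fin 11,
    x.val = a ∨ x.val = b ∨ x = rt a b ∨
      ∃ y, G.Adj x y ∧ y.val ≠ a ∧ y.val ≠ b ∧ rk a b y < rk a b x := by decide +kernel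

lemma conn (a b : Fin 12) (S : Set (Fin 11)) (h : ∀ x, x ∈ S ↔ x.val = a ∨ x.val = b) :
    (G.induce Sᶜ).Connected := by
  obtain ⟨h1, h2⟩ := cert a b
  have hr : rt a b ∈ Sᶜ := fun e => by have := (h _).1 e; tauto
  have k : ∀ m, ∀ x : ↥Sᶜ, rk a b x = m → (G.induce Sᶜ).Reachable x ⟨_, hr⟩ := fun m => by
    induction m using Nat.strong_induction_on with
    | _ m ih =>
    rintro ⟨x, hx⟩ rfl
    rcases h2 x with e | e | rfl | ⟨y, e1, e2, e3, e4⟩
    · exact absurd ((h _).2 (Or.inl e)) hx
    · exact absurd ((h _).2 (Or.inr e)) hx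
    · rfl
    · have hy : y ∈ Sᶜ := fun e => by have := (h _).1 e; tauto
      exact (Adj.reachable (show (G.induce Sᶜ).Adj ⟨x, hx⟩ ⟨y, hy⟩ from e1)).trans
        (ih _ e4 ⟨y, hy⟩ rfl)
  haveI : Nonempty ↥Sᶜ := ⟨⟨_, hr⟩⟩
  exact ⟨fun x y => (k _ x rfl).trans (k _ y rfl).symm⟩

theorem result : ∃ (n : ℕ) (G : SimpleGraph (Fin n)), ThreeConn G ∧
    (∃ v, Odd (G.neighborSet v).ncard) ∧ ∃ q ∈ Set.Ioo (1 : ℝ) 2, flow G q = 0 := by
  refine ⟨11, G, ⟨by omega, fun S hS => ?_⟩, ⟨5, ?_⟩, ?_⟩
  · obtain h | h | h : S.ncard = 0 ∨ S.ncard = 1 ∨ S.ncard = 2 := by omega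
    · rw [Set.ncard_eq_zero] at h
      exact conn 11 11 S fun x => by simp [h]; omega
    · obtain ⟨a, rfl⟩ := Set.ncard_eq_one.1 h
      exact conn a.castSucc a.castSucc _ fun x => by simp [Fin.ext_iff]
    · obtain ⟨a, b, -, rfl⟩ := Set.ncard_eq_two.1 h
      exact conn a.castSucc b.castSucc _ fun x => by simp [Fin.ext_iff]
  · rw [Set.ncard_eq_toFinset_card']; decide +kernel
  have c : ContinuousOn (flow G) (Set.Icc (3 / 2) (99 / 50)) :=
    continuousOn_finsetSum _ fun A _ => continuousOn_const.mul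
      (continuousOn_id.zpow₀ _ fun x hx => Or.inl (by have := hx.1; simp only [id]; positivity))
  have a1 := flow_eq (3 / 2) (by norm_num)
  have a2 := flow_eq (99 / 50) (by norm_num)
  push_cast at a1 a2
  obtain ⟨q, hq, e⟩ := intermediate_value_Icc' (by norm_num) c (show (0 : ℝ) ∈ _ from
    ⟨by rw [a2]; exact_mod_cast r2.le, by rw [a1]; exact_mod_cast r1.le⟩)
  exact ⟨q, ⟨by linarith [hq.1], by linarith [hq.2]⟩, e⟩

end Pool.Agent.Results.MP_a73859_co.Counter
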